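import Pool.Agent.H40.Lpp

set_option autoImplicit false

namespace Pool.Agent.Results.MP_4f615a_lc.LppFails

open Pool.Agent.H40.Lpp

/-- Neither `GL.3` nor `Grz.3` has the Lyndon positivity property. -/
theorem result : FailsLPP GL3 ∧ FailsLPP Grz3 := ⟨gl3, grz3⟩

end Pool.Agent.Results.MP_4f615a_lc.LppFails
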